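import Pool.Agent.Q284.PX.All3

/-!
# Arthur types which vary with the place: assembly (the proof of `PX.t_H1` with `θ ≤ 1/2` instead of `θ < 1/2`)
-/

set_option autoImplicit false

open Finset Polynomial ComplexConjugate
open Pool.Agent.H341R2.Sharp (Mon mem_Mon)

namespace Pool.Agent.Q284.AO

open Pool.Agent.Q284.PX
open Pool.Agent.Q284.PS hiding Good

/-- as `PX.H1Stm`, with `θ ≤ 1/2` -/
def AOStm : Prop := ∃ g₀ : ℕ, ∀ g : ℕ, g₀ ≤ g → ∀ (F : Type) [Field F] [Fintype F], ringChar F ≠ 2 →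
  ∀ θ : F[X] → ℝ, (∀ P, 0 ≤ θ P ∧ θ P ≤ 1 / 2) →
  ∀ (D : F[X] → ℕ → (F[X] → ℂ) → ℕ) (ε : (F[X] → ℂ) → ℂ),
  (∀ (Q : F[X]) (l : ℕ) (χ : F[X] → ℂ), Prim Q l χ →
    2 * g * (Q.natDegree + max 2 l - 1) ≤ D Q l χ ∧ D Q l (fun f => conj (χ f)) = D Q l χ) →
  (∀ χ, ‖ε χ‖ = 1) → (∀ χ, ε (fun f => conj (χ f)) = conj (ε χ)) →
  ∃ β : F[X] → Fin g → ℂ, Tempered β ∧ SelfDual β ∧
    ∀ (Q : F[X]) (l : ℕ) (χ : F[X] → ℂ), Prim Q l χ → ∃ L : ℂ → ℂ,
      Nice (Fintype.card F) (D Q l χ) (ε χ) L ∧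
      ∀ s : ℂ, 1 - 5 / (4 * (g : ℝ)) ≤ s.re → L s ≠ 0 ∧ HasProd (stFactor θ β χ s) (L s)

theorem t_AO (hP : PXV) (hA : AdmStm) (hF1 : S_H1F) (hEUL : PS.S_EUL) (hDSUM : PS.S_DSUM) (hM : S_AFM) :
    AOStm := by
  classical
  obtain ⟨d₀, hP⟩ := hP
  obtain ⟨d₁, D₃, hA⟩ := hA
  obtain ⟨g₁, hF1⟩ := hF1
  refine ⟨10 ^ 7 + d₀ + 7 * D₃ + d₁ + g₁, ?_⟩
  intro g hg F _ _ hF θ hθ D ε hDD hε hεc
  have hq3 : 3 ≤ qq F := three_le_qq hF
  have hq0 : 0 < qq F := by linarith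
  have hq1 : 1 ≤ qq F := by linarith
  have hqq : (Fintype.card F : ℝ) = qq F := rfl
  have hg7 : 10 ^ 7 ≤ g := by omega
  have hgr : (10 ^ 7 : ℝ) ≤ g := by exact_mod_cast hg7
  obtain ⟨v, hv⟩ := hF1 g (by omega)
  let y : F[X] → ℝ := fun P => qq F ^ (θ P * P.natDegree)
  have hy1 : ∀ P, 1 ≤ y P := by
    intro P
    apply Real.one_le_rpow hq1
    have := (hθ P).1
    positivity
  have hy0 : ∀ P, 0 < y P := fun P => lt_of_lt_of_le one_pos (hy1 P)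
  have hyk : ∀ (P : F[X]) (k : ℕ), y P ^ k ≤ qq F ^ (1 / 2 * ((k : ℝ) * P.natDegree)) := by
    intro P k
    show (qq F ^ (θ P * P.natDegree)) ^ k ≤ _
    rw [← Real.rpow_natCast (qq F ^ (θ P * P.natDegree)) k, ← Real.rpow_mul hq0.le]
    apply Real.rpow_le_rpow_of_exponent_le hq1
    have h1 := (hθ P).2
    have h2 : (0 : ℝ) ≤ (k : ℝ) * P.natDegree := by positivity
    calc θ P * P.natDegree * k = θ P * (k * P.natDegree) := by ring
      _ ≤ 1 / 2 * (k * P.natDegree) := mul_le_mul_of_nonneg_right h1 h2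
  let V : F[X] → ℝ → ℕ → ℝ := fun P => v (y P)
  have hg0 : (0 : ℝ) < g := by linarith
  have hFull : FullF F (g - 1) (1 / 2 + 1 / (g : ℝ)) V := by
    refine ⟨fun P => (hv (y P) (hy1 P)).1, fun P => (hv (y P) (hy1 P)).2.1,
      fun P => (hv (y P) (hy1 P)).2.2.1, ?_, ?_⟩
    · intro P z k hz
      refine ((hv (y P) (hy1 P)).2.2.2.1 z k hz).trans ?_
      apply mul_le_mul_of_nonneg_left _ (by positivity)
      refine (hyk P k).trans ?_
      apply Real.rpow_le_rpow_of_exponent_le hq1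
      apply mul_le_mul_of_nonneg_right _ (by positivity)
      have : 0 ≤ 1 / (g : ℝ) := by positivity
      linarith
    · intro P k hP1
      refine ((hv (y P) (hy1 P)).2.2.2.2.1 k).trans ?_
      have h1 : (3 : ℝ) ^ ((k : ℝ) / g) ≤ qq F ^ (1 / (g : ℝ) * ((k : ℝ) * P.natDegree)) := by
        calc (3 : ℝ) ^ ((k : ℝ) / g) ≤ qq F ^ ((k : ℝ) / g) :=
              Real.rpow_le_rpow (by norm_num) hq3 (by positivity)
          _ ≤ _ := by
              apply Real.rpow_le_rpow_of_exponent_le hq1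
              have h2 : (1 : ℝ) ≤ P.natDegree := by exact_mod_cast hP1
              have h3 : (k : ℝ) / g = 1 / (g : ℝ) * ((k : ℝ) * 1) := by ring
              rw [h3]
              gcongr
      calc (3 : ℝ) ^ ((k : ℝ) / g) * y P ^ k ≤
          qq F ^ (1 / (g : ℝ) * ((k : ℝ) * P.natDegree)) * qq F ^ (1 / 2 * ((k : ℝ) * P.natDegree)) :=
            mul_le_mul h1 (hyk P k) (by have := hy0 P; positivity) (by positivity)
        _ = qq F ^ ((1 / 2 + 1 / (g : ℝ)) * ((k : ℝ) * P.natDegree)) := by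
            rw [← Real.rpow_add hq0]
            congr 1
            ring
  have hadm : Adm F (2 * g) D₃ V := hA (2 * g) (by omega) F hF (g - 1) (by omega) (by omega)
    (1 / 2 + 1 / (g : ℝ)) (by positivity) (num_H1 hg7) V hFull
  obtain ⟨a, hgood, hmass, hmain⟩ := hP D₃ (2 * g) (by omega) F hF V hadm D ε _ (data0 hDD hε hεc)
  have hsmall : ∀ P : F[X], P.Monic → Irreducible P → |a P| ≤ 1 / 100 := by
    intro P h1 h2
    exact (hgood P.natDegree).small P.natDegree le_rfl P (mem_PI.2 ⟨h1, rfl, h2⟩)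
  have hv0 : ∀ P : F[X], Vo V a P 0 = 1 := fun P => hadm.zero P _
  have hβ : ∀ P : F[X], ∃ β : Fin g → ℂ, P.Monic → Irreducible P → (∀ j, ‖β j‖ = 1) ∧ ∏ j, β j = 1 ∧
      (∀ w : ℂ, ∏ j, (1 - conj (β j) * w) = ∏ j, (1 - β j * w)) ∧
      ∀ w : ℂ, y P * ‖w‖ < 1 → HasSum (fun k : ℕ => (Vo V a P k : ℂ) * w ^ k)
        (∏ j, ((1 - (y P : ℂ) * β j * w)⁻¹ * (1 - (((y P)⁻¹ : ℝ) : ℂ) * β j * w)⁻¹)) := by
    intro P
    by_cases h1 : P.Monic ∧ Irreducible P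
    · obtain ⟨β, h2⟩ := (hv (y P) (hy1 P)).2.2.2.2.2 (a P) (hsmall P h1.1 h1.2)
      exact ⟨β, fun _ _ => h2⟩
    · exact ⟨fun _ => 1, fun h2 h3 => absurd ⟨h2, h3⟩ h1⟩
  choose β hβ using hβ
  refine ⟨β, fun P h1 h2 => ⟨(hβ P h1 h2).1, (hβ P h1 h2).2.1⟩, fun P h1 h2 => (hβ P h1 h2).2.2.1, ?_⟩
  intro Q l χ hχ
  have hcm := hay_cm hχ.1
  obtain ⟨hz, hfe, _⟩ := hmain Q l χ hχ
  have hchi : ∀ f : F[X], ‖χ f‖ ≤ 1 := fun f => norm_le_one hχ.1 f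
  have hser : ∀ s : ℂ, 1 - 5 / (4 * (g : ℝ)) ≤ s.re → ∀ P : Place F,
      y P.1 * ‖χ P.1 * absPow P.1 s‖ < 1 ∧
      HasSum (fun k : ℕ => (Vo V a P.1 k : ℂ) * (χ P.1 * absPow P.1 s) ^ k) (stFactor θ β χ s P) := by
    intro s hs
    rintro ⟨P, h1, h2⟩
    have hdeg : (1 : ℝ) ≤ P.natDegree := by exact_mod_cast h2.natDegree_pos
    have h3 : y P * ‖χ P * absPow P s‖ < 1 := by
      calc y P * ‖χ P * absPow P s‖ ≤ qq F ^ (θ P * P.natDegree) * qq F ^ (-s.re * P.natDegree) :=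
            mul_le_mul_of_nonneg_left (chi_abs_le hq0 hchi P s) (hy0 P).le
        _ = qq F ^ ((θ P - s.re) * P.natDegree) := by
            rw [← Real.rpow_add hq0]
            congr 1
            ring
        _ < 1 := by
            apply Real.rpow_lt_one_of_one_lt_of_neg (by linarith)
            apply mul_neg_of_neg_of_pos _ (by linarith)
            have h4 : 5 / (4 * (g : ℝ)) < 1 / 2 := by
              rw [div_lt_div_iff₀ (by linarith) (by norm_num)]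
              linarith
            have := (hθ P).2
            linarith
    exact ⟨h3, (hβ P h1 h2).2.2.2 _ h3⟩
  have hre : ∀ s : ℂ, 1 - 5 / (4 * (g : ℝ)) ≤ s.re → 1 - 5 / (2 * ((2 * g : ℕ) : ℝ)) ≤ s.re := by
    intro s hs
    refine le_trans (le_of_eq ?_) hs
    push_cast
    ring
  have hloc : ∀ s : ℂ, 1 - 5 / (4 * (g : ℝ)) ≤ s.re →
      HasProd (stFactor θ β χ s) (Ls (Fintype.card F) (D Q l χ) (ef (Vo V a) χ) s) := by
    intro s hs
    exact gen_euler hEUL hDSUM hM hq3 (by omega : 1 ≤ 2 * g) hv0 hcm hchi hmass hz (hre s hs)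
      (fun P => (hser s hs P).2)
  refine ⟨Ls (Fintype.card F) (D Q l χ) (ef (Vo V a) χ),
    gen_nice (Fintype.card_pos) (hε χ) (ef_zero hM hv0 hcm.1) hfe, fun s hs => ⟨?_, hloc s hs⟩⟩
  refine gen_ne_zero hDSUM hM hq3 (by omega : 1 ≤ 2 * g) hv0 hcm hchi hmass (hre s hs) (hloc s hs) ?_
    (fun P => (hser s hs P).2)
  intro P'
  have h3 := (hser s hs P').1
  obtain ⟨P, h1, h2⟩ := P'
  have hone : ∀ w : ℂ, ‖w‖ < 1 → 1 - w ≠ 0 := by
    intro w hw h3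
    have h4 : w = 1 := (sub_eq_zero.1 h3).symm
    rw [h4, norm_one] at hw
    exact lt_irrefl _ hw
  have h4 : y P * ‖χ P * absPow P s‖ < 1 := h3
  unfold stFactor
  rw [prod_ne_zero_iff]
  intro j _
  have hb1 := (hβ P h1 h2).1 j
  refine mul_ne_zero (inv_ne_zero (hone _ ?_)) (inv_ne_zero (hone _ ?_))
  · show ‖((y P : ℝ) : ℂ) * β P j * (χ P * absPow P s)‖ < 1
    rw [norm_mul, norm_mul, hb1, mul_one, Complex.norm_real, Real.norm_eq_abs, abs_of_pos (hy0 P)]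
    exact h4
  · show ‖(((y P)⁻¹ : ℝ) : ℂ) * β P j * (χ P * absPow P s)‖ < 1
    rw [norm_mul, norm_mul, hb1, mul_one, Complex.norm_real, Real.norm_eq_abs, abs_of_pos (inv_pos.2 (hy0 P))]
    refine lt_of_le_of_lt ?_ h4
    apply mul_le_mul_of_nonneg_right _ (norm_nonneg _)
    exact (inv_le_one_of_one_le₀ (hy1 P)).trans (hy1 P)

theorem aoStm : AOStm :=
  t_AO pxv.1 pxv.2 (Pool.Agent.Q239.PX.t_H1F Pool.Agent.Q277.PS.t_LOC1 Pool.Agent.Q177.PS.LOC2.t_LOC2)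
    Pool.Agent.Q92.PS.t_EUL Pool.Agent.Q92.PS.t_DSUM Pool.Agent.Q237.PX.t_AFM

end Pool.Agent.Q284.AO
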